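import Pool.Agent.W2helper92.Genus.Check

set_option autoImplicit false

namespace Pool.Agent.W2helper92.Genus

theorem chunk0 : all2 check 10 0 = true := by decide +kernel

theorem chunk1 : all2 check 10 1 = true := by decide +kernel

theorem chunk2 : all2 check 10 2 = true := by decide +kernel

theorem chunk3 : all2 check 10 3 = true := by decide +kernel

theorem chunk4 : all2 check 10 4 = true := by decide +kernel

theorem chunk5 : all2 check 10 5 = true := by decide +kernel

theorem chunk6 : all2 check 10 6 = true := by decide +kernel

theorem chunk7 : all2 check 10 7 = true := by decide +kernel

end Pool.Agent.W2helper92.Genus
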