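import Pool.Agent.W2helper92.Genus.Check

set_option autoImplicit false

namespace Pool.Agent.W2helper92.Genus

theorem chunk8 : all2 check 10 8 = true := by decide +kernel

theorem chunk9 : all2 check 10 9 = true := by decide +kernel

theorem chunk10 : all2 check 10 10 = true := by decide +kernel

theorem chunk11 : all2 check 10 11 = true := by decide +kernel

theorem chunk12 : all2 check 10 12 = true := by decide +kernel

theorem chunk13 : all2 check 10 13 = true := by decide +kernel

theorem chunk14 : all2 check 10 14 = true := by decide +kernel

theorem chunk15 : all2 check 10 15 = true := by decide +kernel

end Pool.Agent.W2helper92.Genus
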