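import Pool.Agent.W2helper92.Genus.Check

set_option autoImplicit false

namespace Pool.Agent.W2helper92.Genus

theorem chunk16 : all2 check 10 16 = true := by decide +kernel

theorem chunk17 : all2 check 10 17 = true := by decide +kernel

theorem chunk18 : all2 check 10 18 = true := by decide +kernel

theorem chunk19 : all2 check 10 19 = true := by decide +kernel

theorem chunk20 : all2 check 10 20 = true := by decide +kernel

theorem chunk21 : all2 check 10 21 = true := by decide +kernel

theorem chunk22 : all2 check 10 22 = true := by decide +kernel

theorem chunk23 : all2 check 10 23 = true := by decide +kernel

end Pool.Agent.W2helper92.Genus
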