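import Pool.Agent.W2helper92.Genus.Check

set_option autoImplicit false

namespace Pool.Agent.W2helper92.Genus

theorem chunk24 : all2 check 10 24 = true := by decide +kernel

theorem chunk25 : all2 check 10 25 = true := by decide +kernel

theorem chunk26 : all2 check 10 26 = true := by decide +kernel

theorem chunk27 : all2 check 10 27 = true := by decide +kernel

theorem chunk28 : all2 check 10 28 = true := by decide +kernel

theorem chunk29 : all2 check 10 29 = true := by decide +kernel

theorem chunk30 : all2 check 10 30 = true := by decide +kernel

theorem chunk31 : all2 check 10 31 = true := by decide +kernel

end Pool.Agent.W2helper92.Genus
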