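import Pool.Agent.W2helper92.Genus.Check

set_option autoImplicit false

namespace Pool.Agent.W2helper92.Genus

theorem chunk32 : all2 check 10 32 = true := by decide +kernel

theorem chunk33 : all2 check 10 33 = true := by decide +kernel

theorem chunk34 : all2 check 10 34 = true := by decide +kernel

theorem chunk35 : all2 check 10 35 = true := by decide +kernel

theorem chunk36 : all2 check 10 36 = true := by decide +kernel

theorem chunk37 : all2 check 10 37 = true := by decide +kernel

theorem chunk38 : all2 check 10 38 = true := by decide +kernel

theorem chunk39 : all2 check 10 39 = true := by decide +kernel

end Pool.Agent.W2helper92.Genus
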