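import Pool.Agent.W2helper92.Genus.Check

set_option autoImplicit false

namespace Pool.Agent.W2helper92.Genus

theorem chunk40 : all2 check 10 40 = true := by decide +kernel

theorem chunk41 : all2 check 10 41 = true := by decide +kernel

theorem chunk42 : all2 check 10 42 = true := by decide +kernel

theorem chunk43 : all2 check 10 43 = true := by decide +kernel

theorem chunk44 : all2 check 10 44 = true := by decide +kernel

theorem chunk45 : all2 check 10 45 = true := by decide +kernel

theorem chunk46 : all2 check 10 46 = true := by decide +kernel

theorem chunk47 : all2 check 10 47 = true := by decide +kernel

end Pool.Agent.W2helper92.Genus
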