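import Pool.Agent.W2helper92.Genus.Check

set_option autoImplicit false

namespace Pool.Agent.W2helper92.Genus

theorem chunk48 : all2 check 10 48 = true := by decide +kernel

theorem chunk49 : all2 check 10 49 = true := by decide +kernel

theorem chunk50 : all2 check 10 50 = true := by decide +kernel

theorem chunk51 : all2 check 10 51 = true := by decide +kernel

theorem chunk52 : all2 check 10 52 = true := by decide +kernel

theorem chunk53 : all2 check 10 53 = true := by decide +kernel

theorem chunk54 : all2 check 10 54 = true := by decide +kernel

theorem chunk55 : all2 check 10 55 = true := by decide +kernel

end Pool.Agent.W2helper92.Genus
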