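import Pool.Agent.W2helper92.Genus.Check

set_option autoImplicit false

namespace Pool.Agent.W2helper92.Genus

theorem chunk56 : all2 check 10 56 = true := by decide +kernel

theorem chunk57 : all2 check 10 57 = true := by decide +kernel

theorem chunk58 : all2 check 10 58 = true := by decide +kernel

theorem chunk59 : all2 check 10 59 = true := by decide +kernel

theorem chunk60 : all2 check 10 60 = true := by decide +kernel

theorem chunk61 : all2 check 10 61 = true := by decide +kernel

theorem chunk62 : all2 check 10 62 = true := by decide +kernel

theorem chunk63 : all2 check 10 63 = true := by decide +kernel

end Pool.Agent.W2helper92.Genus
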