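import Mathlib

/-!
# Counting the cycles of a permutation of `{0, …, 47}` given by a table

`step m d` is the face permutation of the graph `G16` for the rotation system with the number `m`
(the binary digit `v` of `m` tells the rotation at the vertex `v`).
-/

set_option autoImplicit false

namespace Pool.Agent.W2helper92.Genus

/-- binary digit -/
def tb (m k : ℕ) : Bool := Nat.beq (Nat.land 1 (Nat.shiftRight m k)) 1

/-- The successor of the dart `d`: a digit in base 64 of one of two tables; a third table has the
vertex which decides. -/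
def step (m d : ℕ) : ℕ :=
  Nat.land (Nat.shiftRight
    (Bool.rec
      307491190911633603042448840214797773167331150483866571968587985518812172862212498825668
      315385120219356165544620238198945066694806520399586574147856852380772379687713537307141
      (tb m (Nat.land (Nat.shiftRight
        102497043566582399587275752114211615469674828234977339144648338719326900435710396870785
        (Nat.mul 6 d)) 63)))
     (Nat.mul 6 d)) 63

/-- marks the darts `x`, `step x`, … up to `d` -/
def trace (m d : ℕ) (fuel : ℕ) : ℕ → ℕ → ℕ :=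
  Nat.rec (fun _ vis => vis) (fun _ ih x vis =>
    Bool.rec (ih (step m x) (Nat.lor vis (Nat.shiftLeft 1 x))) vis (Nat.beq x d)) fuel

/-- an unmarked dart (the discrete logarithm to the base 2 modulo 53 of the lowest binary digit
zero) -/
def start (vis : ℕ) : ℕ :=
  Nat.land (Nat.shiftRight
    220544676043655077866188995094628713624636084589967648142487508994929980741695260889010298687488
    (Nat.mul 6 (Nat.mod (Nat.xor (Nat.succ vis) (Nat.land vis (Nat.succ vis))) 53))) 63

/-- are all darts marked after the tracing of at most `k` further cycles? -/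
def count (m : ℕ) (k : ℕ) : ℕ → Bool :=
  Nat.rec (fun vis => Nat.beq vis 281474976710655) (fun _ ih vis =>
    Bool.rec (Bool.rec false (ih (trace m (start vis) 48 (step m (start vis))
      (Nat.lor vis (Nat.shiftLeft 1 (start vis))))) (Nat.ble (start vis) 47)) true
      (Nat.beq vis 281474976710655)) k

/-- does the cycle of `x` contain `y`? -/
def hits (m y : ℕ) (fuel : ℕ) : ℕ → Bool :=
  Nat.rec (fun _ => false) (fun _ ih x => Bool.rec (ih (step m x)) true (Nat.beq x y)) fuel

/-- the reversed dart -/
def opp (d : ℕ) : ℕ :=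
  Nat.land (Nat.shiftRight
    323279139844908334467716607192581739369719409459788035587317066616888955991111982158211
    (Nat.mul 6 d)) 63

/-- some cycle contains a dart and the reversed dart -/
def noncirc (m : ℕ) (k : ℕ) : Bool :=
  Nat.rec false (fun d ih => Bool.rec ih true (hits m (opp d) 48 d)) k

/-- at most seven cycles, or at most eight and some cycle contains a dart and the reversed dart -/
def check (m : ℕ) : Bool :=
  Bool.rec (Bool.rec false (noncirc m 48) (count m 8 0)) true (count m 7 0)

/-- `p` for all numbers with the binary prefix `x` and `k` more digits -/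
def all2 (p : ℕ → Bool) (k : ℕ) : ℕ → Bool :=
  Nat.rec (fun x => p x) (fun _ ih x => Bool.rec false (ih (Nat.succ (Nat.mul 2 x))) (ih (Nat.mul 2 x))) k

theorem all2_spec (p : ℕ → Bool) : ∀ (k x : ℕ), all2 p k x = true →
    ∀ y, y < 2 ^ k → p (x * 2 ^ k + y) = true := by
  intro k
  induction k with
  | zero =>
    intro x h y hy
    have : y = 0 := by simpa using hy
    subst this
    have e : all2 p 0 x = p x := rfl
    rw [e] at h
    simpa using h
  | succ k ih =>
    intro x h y hy
    have h' : (Bool.rec false (all2 p k (2 * x + 1)) (all2 p k (2 * x)) : Bool) = true := h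
    have h1 : all2 p k (2 * x) = true := by
      revert h'
      cases all2 p k (2 * x) <;> simp
    have h2 : all2 p k (2 * x + 1) = true := by
      rw [h1] at h'
      exact h'
    rcases lt_or_ge y (2 ^ k) with hlt | hge
    · have := ih (2 * x) h1 y hlt
      have e : 2 * x * 2 ^ k + y = x * 2 ^ (k + 1) + y := by ring
      rwa [e] at this
    · have := ih (2 * x + 1) h2 (y - 2 ^ k) (by rw [pow_succ] at hy; omega)
      have e : (2 * x + 1) * 2 ^ k + (y - 2 ^ k) = x * 2 ^ (k + 1) + y := by
        have : (2 * x + 1) * 2 ^ k = x * 2 ^ (k + 1) + 2 ^ k := by ring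
        rw [this]
        omega
      rwa [e] at this

theorem tb_eq (m k : ℕ) : tb m k = m.testBit k := by
  have h : tb m k = Nat.beq (1 &&& (m >>> k)) 1 := rfl
  rw [h, Nat.testBit, Nat.one_and_eq_mod_two]
  rcases Nat.mod_two_eq_zero_or_one (m >>> k) with h | h <;> rw [h] <;> rfl

section soundness

variable {D : Type*} (φ : Equiv.Perm D) (cd : D → ℕ)

/-- every marked dart is on the cycle of an element of `S` -/
def Inv (S : Finset D) (vis : ℕ) : Prop :=
  ∀ x : D, vis.testBit (cd x) = true → ∃ s ∈ S, φ.SameCycle s x

variable {φ cd}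

theorem lor_shift (vis x y : ℕ) :
    (Nat.lor vis (Nat.shiftLeft 1 x)).testBit y = (vis.testBit y || decide (x = y)) := by
  have h : Nat.lor vis (Nat.shiftLeft 1 x) = vis ||| (1 <<< x) := rfl
  rw [h, Nat.testBit_or, Nat.one_shiftLeft, Nat.testBit_two_pow]

theorem trace_spec {m d : ℕ} (hinj : Function.Injective cd)
    (hstep : ∀ x, step m (cd x) = cd (φ x)) (S : Finset D) :
    ∀ (fuel : ℕ) (x : D) (vis : ℕ), Inv φ cd S vis → (∃ s ∈ S, φ.SameCycle s x) →
      Inv φ cd S (trace m d fuel (cd x) vis) := by
  intro fuel
  induction fuel with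
  | zero =>
    intro x vis h _
    exact h
  | succ f ih =>
    intro x vis h hx
    have e : trace m d (f + 1) (cd x) vis =
        Bool.rec (trace m d f (step m (cd x)) (Nat.lor vis (Nat.shiftLeft 1 (cd x)))) vis
          (Nat.beq (cd x) d) := rfl
    rw [e, hstep]
    cases hb : Nat.beq (cd x) d
    · simp only
      have h2 : Inv φ cd S (Nat.lor vis (Nat.shiftLeft 1 (cd x))) := by
        intro y hy
        rw [lor_shift, Bool.or_eq_true, decide_eq_true_eq] at hy
        rcases hy with hy | hy
        · exact h y hy
        · rw [← hinj hy]; exact hx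
      obtain ⟨s, hs, hsx⟩ := hx
      exact ih (φ x) _ h2 ⟨s, hs, Equiv.Perm.sameCycle_apply_right.2 hsx⟩
    · exact h

theorem count_spec [DecidableEq D] {m : ℕ} (hinj : Function.Injective cd)
    (hsurj : ∀ i, i < 48 → ∃ x, cd x = i)
    (hlt : ∀ x, cd x < 48) (hstep : ∀ x, step m (cd x) = cd (φ x)) :
    ∀ (k vis : ℕ) (S : Finset D), Inv φ cd S vis → count m k vis = true →
      ∃ S' : Finset D, S'.card ≤ S.card + k ∧ ∀ x, ∃ s ∈ S', φ.SameCycle s x := by
  have full : ∀ (vis : ℕ) (S : Finset D), Inv φ cd S vis →
      Nat.beq vis 281474976710655 = true → ∀ x, ∃ s ∈ S, φ.SameCycle s x := by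
    intro vis S hS hv x
    apply hS x
    rw [Nat.eq_of_beq_eq_true hv, show 281474976710655 = 2 ^ 48 - 1 by norm_num,
      Nat.testBit_two_pow_sub_one, decide_eq_true_eq]
    exact hlt x
  intro k
  induction k with
  | zero =>
    intro vis S hS hc
    exact ⟨S, le_rfl, full vis S hS hc⟩
  | succ k ih =>
    intro vis S hS hc
    have e : count m (k + 1) vis =
      Bool.rec (Bool.rec false (count m k (trace m (start vis) 48 (step m (start vis))
        (Nat.lor vis (Nat.shiftLeft 1 (start vis))))) (Nat.ble (start vis) 47)) true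
        (Nat.beq vis 281474976710655) := rfl
    rw [e] at hc
    cases hb : Nat.beq vis 281474976710655
    · rw [hb] at hc
      cases hd : Nat.ble (start vis) 47
      · rw [hd] at hc
        exact absurd hc (by simp)
      · rw [hd] at hc
        simp only at hc
        have hd' := Nat.le_of_ble_eq_true hd
        obtain ⟨x, hx⟩ := hsurj (start vis) (by omega)
        rw [← hx] at hc
        have hxx : ∃ s ∈ insert x S, φ.SameCycle s x :=
          ⟨x, Finset.mem_insert_self _ _, Equiv.Perm.SameCycle.refl _ _⟩
        have hS' : Inv φ cd (insert x S) (Nat.lor vis (Nat.shiftLeft 1 (cd x))) := by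
          intro y hy
          rw [lor_shift, Bool.or_eq_true, decide_eq_true_eq] at hy
          rcases hy with hy | hy
          · obtain ⟨s, hs, h⟩ := hS y hy
            exact ⟨s, Finset.mem_insert_of_mem hs, h⟩
          · rw [← hinj hy]; exact hxx
        rw [hstep] at hc
        have hT := trace_spec (d := cd x) hinj hstep (insert x S) 48 (φ x) _ hS'
          ⟨x, Finset.mem_insert_self _ _,
            Equiv.Perm.sameCycle_apply_right.2 (Equiv.Perm.SameCycle.refl _ _)⟩
        obtain ⟨S', h1, h2⟩ := ih _ _ hT hc
        refine ⟨S', ?_, h2⟩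
        have := Finset.card_insert_le x S
        omega
    · exact ⟨S, by omega, full vis S hS hb⟩

theorem card_faces_le {m k : ℕ} (hinj : Function.Injective cd)
    (hsurj : ∀ i, i < 48 → ∃ x, cd x = i)
    (hlt : ∀ x, cd x < 48) (hstep : ∀ x, step m (cd x) = cd (φ x)) (hk : count m k 0 = true) :
    Nat.card (Quotient (Equiv.Perm.SameCycle.setoid φ)) ≤ k := by
  classical
  obtain ⟨S, hS, h⟩ := count_spec hinj hsurj hlt hstep k 0 ∅
    (fun x hx => by simp at hx) hk
  rw [Finset.card_empty, zero_add] at hS
  refine le_trans ?_ hS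
  have hc : Nat.card S = S.card := by simp
  rw [← hc]
  refine Nat.card_le_card_of_surjective
    (fun s : S => Quotient.mk (Equiv.Perm.SameCycle.setoid φ) s.1) ?_
  intro q
  induction q using Quotient.inductionOn with
  | h x =>
    obtain ⟨s, hs, hx⟩ := h x
    exact ⟨⟨s, hs⟩, Quotient.sound hx⟩

theorem hits_spec {m : ℕ} (hinj : Function.Injective cd)
    (hstep : ∀ x, step m (cd x) = cd (φ x)) (y : D) :
    ∀ (fuel : ℕ) (x : D), hits m (cd y) fuel (cd x) = true → φ.SameCycle x y := by
  intro fuel
  induction fuel with
  | zero => intro x h; exact absurd h (by simp [hits])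
  | succ f ih =>
    intro x h
    have e : hits m (cd y) (f + 1) (cd x) =
      Bool.rec (hits m (cd y) f (step m (cd x))) true (Nat.beq (cd x) (cd y)) := rfl
    rw [e, hstep] at h
    cases hb : Nat.beq (cd x) (cd y)
    · rw [hb] at h
      exact Equiv.Perm.sameCycle_apply_left.1 (ih (φ x) h)
    · rw [hinj (Nat.eq_of_beq_eq_true hb)]

theorem noncirc_spec {m : ℕ} (hinj : Function.Injective cd)
    (hsurj : ∀ i, i < 48 → ∃ x, cd x = i) (hstep : ∀ x, step m (cd x) = cd (φ x))
    (ρ : D → D) (hρ : ∀ x, opp (cd x) = cd (ρ x)) :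
    ∀ k, k ≤ 48 → noncirc m k = true → ∃ x, φ.SameCycle x (ρ x) := by
  intro k
  induction k with
  | zero => intro _ h; exact absurd h (by simp [noncirc])
  | succ k ih =>
    intro hk h
    have e : noncirc m (k + 1) = Bool.rec (noncirc m k) true (hits m (opp k) 48 k) := rfl
    rw [e] at h
    cases hb : hits m (opp k) 48 k
    · rw [hb] at h
      exact ih (by omega) h
    · obtain ⟨x, hx⟩ := hsurj k (by omega)
      rw [← hx, hρ] at hb
      exact ⟨x, hits_spec hinj hstep (ρ x) 48 x hb⟩

theorem check_spec {m : ℕ} (hinj : Function.Injective cd)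
    (hsurj : ∀ i, i < 48 → ∃ x, cd x = i)
    (hlt : ∀ x, cd x < 48) (hstep : ∀ x, step m (cd x) = cd (φ x))
    (ρ : D → D) (hρ : ∀ x, opp (cd x) = cd (ρ x)) (h : check m = true) :
    Nat.card (Quotient (Equiv.Perm.SameCycle.setoid φ)) ≤ 8 ∧
      (Nat.card (Quotient (Equiv.Perm.SameCycle.setoid φ)) = 8 → ∃ x, φ.SameCycle x (ρ x)) := by
  have e : check m = Bool.rec (Bool.rec false (noncirc m 48) (count m 8 0)) true
    (count m 7 0) := rfl
  rw [e] at h
  cases hb : count m 7 0
  · rw [hb] at h
    cases hc : count m 8 0
    · rw [hc] at h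
      exact absurd h (by simp)
    · rw [hc] at h
      exact ⟨card_faces_le hinj hsurj hlt hstep hc,
        fun _ => noncirc_spec hinj hsurj hstep ρ hρ 48 le_rfl h⟩
  · have h2 := card_faces_le hinj hsurj hlt hstep hb
    exact ⟨by omega, fun h3 => by omega⟩

end soundness

end Pool.Agent.W2helper92.Genus
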