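import Pool.Agent.W2helper92.Genus.Graph

/-!
# `G16` is cyclically 4-edge-connected
-/

set_option autoImplicit false

namespace Pool.Agent.W2helper92.Genus

open Finset

/-- the numbers of the neighbours of `k` which are smaller than `k` -/
def low (k : ℕ) : List ℕ :=
  if h : k < 16 then ((List.finRange 3).map fun i => (nb ⟨k, h⟩ i).val).filter fun j => j < k
  else []

/-- the number of smaller neighbours on the other side -/
def wt (m : ℕ) (k : ℕ) (b : Bool) : ℕ := ((low k).filter fun j => m.testBit j != b).length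

/-- search through all sets of vertices with pruning -/
def go : ℕ → ℕ → ℕ → ℕ → ℕ → Bool
  | 0, _, _, c, s => decide (4 ≤ c) || decide (s ≤ 1) || decide (15 ≤ s)
  | f + 1, k, m, c, s => decide (4 ≤ c) ||
      (go f (k + 1) m (c + wt m k false) s && go f (k + 1) (m + 2 ^ k) (c + wt m k true) (s + 1))

theorem go_true : go 16 0 0 0 0 = true := by decide +kernel

/-- the number of the pairs of adjacent vertices below `k` on different sides -/
def cutB (M : ℕ) (k : ℕ) : ℕ := ∑ j ∈ range k, wt M j (M.testBit j)

/-- the number of ones below `k` -/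
def ones (M : ℕ) (k : ℕ) : ℕ := ∑ j ∈ range k, (M.testBit j).toNat

theorem low_lt {k j : ℕ} (h : j ∈ low k) : j < k := by
  unfold low at h
  split_ifs at h
  · simpa using (List.mem_filter.1 h).2
  · exact absurd h List.not_mem_nil

theorem wt_congr {m M k : ℕ} (h : ∀ j, j < k → M.testBit j = m.testBit j) (b : Bool) :
    wt m k b = wt M k b := by
  unfold wt
  congr 1
  apply List.filter_congr
  intro j hj
  rw [h j (low_lt hj)]

theorem go_spec : ∀ (f k m c s : ℕ), k + f = 16 → m < 2 ^ k → go f k m c s = true →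
    ∀ M : ℕ, (∀ j, j < k → M.testBit j = m.testBit j) → c ≤ cutB M k → s = ones M k →
      4 ≤ cutB M 16 ∨ ones M 16 ≤ 1 ∨ 15 ≤ ones M 16 := by
  intro f
  induction f with
  | zero =>
    intro k m c s hk _ h M _ hc hs
    have hk' : k = 16 := by omega
    subst hk'
    simp only [go, Bool.or_eq_true, decide_eq_true_eq] at h
    omega
  | succ f ih =>
    intro k m c s hk hm h M hM hc hs
    rw [go, Bool.or_eq_true, decide_eq_true_eq] at h
    rcases h with h | h
    · left
      refine (h.trans hc).trans ?_
      unfold cutB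
      exact Finset.sum_le_sum_of_subset (range_subset_range.2 (by omega))
    · rw [Bool.and_eq_true] at h
      have e1 : cutB M (k + 1) = cutB M k + wt M k (M.testBit k) := sum_range_succ _ _
      have e2 : ones M (k + 1) = ones M k + (M.testBit k).toNat := sum_range_succ _ _
      cases hb : M.testBit k
      · refine ih (k + 1) m _ _ (by omega) (by rw [pow_succ]; omega) h.1 M ?_ ?_ ?_
        · intro j hj
          rcases Nat.lt_succ_iff_lt_or_eq.1 hj with hj | rfl
          · exact hM j hj
          · rw [hb, Nat.testBit_lt_two_pow hm]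
        · rw [e1, hb, wt_congr hM]; omega
        · rw [e2, hb, hs]; rfl
      · refine ih (k + 1) (m + 2 ^ k) _ _ (by omega) (by rw [pow_succ]; omega) h.2 M ?_ ?_ ?_
        · intro j hj
          rcases Nat.lt_succ_iff_lt_or_eq.1 hj with hj | rfl
          · rw [hM j hj, add_comm, Nat.testBit_two_pow_add_gt hj]
          · rw [hb, add_comm, Nat.testBit_two_pow_add_eq, Nat.testBit_lt_two_pow hm]
            rfl
        · rw [e1, hb, wt_congr hM]; omega
        · rw [e2, hb, hs]; rfl

theorem len3 (a b c : ℕ) (p q : ℕ → Bool) : ((([a, b, c] : List ℕ).filter p).filter q).length =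
    (if p a = true ∧ q a = true then 1 else 0) + ((if p b = true ∧ q b = true then 1 else 0) +
      (if p c = true ∧ q c = true then 1 else 0)) := by
  cases h1 : p a <;> cases h2 : p b <;> cases h3 : p c <;> cases h4 : q a <;> cases h5 : q b <;>
    cases h6 : q c <;> simp [List.filter, h1, h2, h3, h4, h5, h6]

/-- the pairs (vertex, smaller neighbour) on different sides -/
def crossPairs (f : Fin 16 → Bool) : Finset (Fin 16 × Fin 3) :=
  univ.filter fun p => nb p.1 p.2 < p.1 ∧ f (nb p.1 p.2) ≠ f p.1

theorem cutB_eq (f : Fin 16 → Bool) : cutB (Nat.ofBits f) 16 = (crossPairs f).card := by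
  unfold cutB crossPairs
  rw [card_filter, Fintype.sum_prod_type, ← Fin.sum_univ_eq_sum_range
    (fun j => wt (Nat.ofBits f) j ((Nat.ofBits f).testBit j)) 16]
  refine Finset.sum_congr rfl fun v _ => ?_
  have hb : ∀ w : Fin 16, (Nat.ofBits f).testBit w = f w :=
    fun w => Nat.testBit_ofBits_lt f _ w.2
  have e1 : low v = (([(nb v 0).val, (nb v 1).val, (nb v 2).val] : List ℕ)).filter
      (fun j => decide (j < v.val)) := by
    unfold low
    rw [dif_pos v.2]
    rfl
  rw [wt, e1, len3, Fin.sum_univ_three]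
  simp only [decide_eq_true_eq, bne_iff_ne, hb, add_assoc]
  rfl

theorem ones_eq (f : Fin 16 → Bool) :
    ones (Nat.ofBits f) 16 = (univ.filter fun v => f v = true).card := by
  unfold ones
  rw [card_filter, ← Fin.sum_univ_eq_sum_range (fun j => ((Nat.ofBits f).testBit j).toNat) 16]
  refine Finset.sum_congr rfl fun v _ => ?_
  rw [Nat.testBit_ofBits_lt f _ v.2]
  cases f v <;> rfl

/-- Every set of at least two vertices whose complement has at least two vertices is left by at
least four edges. -/
theorem four_edges (S : Set (Fin 16)) (h1 : 2 ≤ S.ncard) (h2 : 2 ≤ Sᶜ.ncard) :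
    4 ≤ {e ∈ G16.edgeSet | ∃ u ∈ S, ∃ v ∈ Sᶜ, e = s(u, v)}.ncard := by
  classical
  let f : Fin 16 → Bool := fun v => decide (v ∈ S)
  have hf : ∀ v, f v = true ↔ v ∈ S := fun v => by simp [f]
  have hS : (univ.filter fun v => f v = true).card = S.ncard := by
    rw [← Set.ncard_coe_finset]
    congr 1
    ext v
    simp [hf]
  have hS' : S.ncard + Sᶜ.ncard = 16 := by
    rw [Set.ncard_add_ncard_compl, Nat.card_eq_fintype_card, Fintype.card_fin]
  have key := go_spec 16 0 0 0 0 (by norm_num) (by norm_num) go_true (Nat.ofBits f)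
    (fun j hj => absurd hj (Nat.not_lt_zero _)) (Nat.zero_le _) (by simp [ones])
  rw [cutB_eq, ones_eq, hS] at key
  have h3 : 4 ≤ (crossPairs f).card := by omega
  refine h3.trans ?_
  rw [← Set.ncard_coe_finset]
  refine Set.ncard_le_ncard_of_injOn (fun p : Fin 16 × Fin 3 => s(p.1, nb p.1 p.2)) ?_ ?_
    (Set.toFinite _)
  · rintro ⟨v, i⟩ hp
    have hp' : nb v i < v ∧ f (nb v i) ≠ f v := by simpa [crossPairs] using hp
    refine ⟨adj_nb v i, ?_⟩
    by_cases hv : v ∈ S
    · refine ⟨v, hv, nb v i, ?_, rfl⟩
      intro hw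
      exact hp'.2 (by rw [(hf _).2 hv, (hf _).2 hw])
    · refine ⟨nb v i, ?_, v, hv, Sym2.eq_swap⟩
      by_contra hw
      apply hp'.2
      rw [Bool.eq_false_iff.2 (mt (hf _).1 hv), Bool.eq_false_iff.2 (mt (hf _).1 hw)]
  · rintro ⟨v, i⟩ hp ⟨w, j⟩ hq h
    have hp' : nb v i < v ∧ f (nb v i) ≠ f v := by simpa [crossPairs] using hp
    have hq' : nb w j < w ∧ f (nb w j) ≠ f w := by simpa [crossPairs] using hq
    rcases Sym2.eq_iff.1 h with ⟨h4, h5⟩ | ⟨h4, h5⟩
    · simp only at h4 h5
      subst h4
      rw [nb_inj v i j h5]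
    · simp only at h4 h5
      exfalso
      have h6 := hp'.1
      rw [h5, h4] at h6
      exact absurd (h6.trans hq'.1) (lt_irrefl _)

end Pool.Agent.W2helper92.Genus
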