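import Mathlib

/-!
# Rotation systems, faces and the genus of a graph

An embedding of a connected graph `G` in a closed orientable surface all of whose regions are open
discs is the same (up to homeomorphism) as a rotation system: a cyclic order of the darts (oriented
edges) leaving each vertex. The perimeters of the regions are the orbits of the permutation
`d ↦ next (reverse of d)` of the darts, and the genus `g` is given by Euler's formula
`|V| - |E| + |F| = 2 - 2 g`.
-/

set_option autoImplicit false

namespace Pool.Agent.W2helper92.Genus

variable {V : Type*}

/-- A rotation system of the graph `G`: a permutation of the darts which permutes the darts leaving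
each vertex in one cycle. -/
structure RotationSystem (G : SimpleGraph V) where
  /-- the next dart in the rotation at the same vertex -/
  next : Equiv.Perm G.Dart
  /-- the next dart leaves the same vertex -/
  fst_next : ∀ d, (next d).fst = d.fst
  /-- the darts leaving a vertex form one cycle -/
  sameCycle : ∀ d d' : G.Dart, d.fst = d'.fst → next.SameCycle d d'

variable {G : SimpleGraph V}

/-- The face permutation: the perimeter of a region goes along the dart `d` from `u` to `v` and
continues with the dart which follows the reversed dart from `v` to `u` in the rotation at `v`. -/
def RotationSystem.face (σ : RotationSystem G) : Equiv.Perm G.Dart :=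
  (SimpleGraph.Dart.symm_involutive.toPerm SimpleGraph.Dart.symm).trans σ.next

/-- The regions: the orbits of the face permutation. -/
def RotationSystem.Faces (σ : RotationSystem G) : Type _ :=
  Quotient (Equiv.Perm.SameCycle.setoid σ.face)

/-- The rotation system is an embedding in the closed orientable surface of genus `g`
(Euler's formula `|V| - |E| + |F| = 2 - 2 g`). -/
def RotationSystem.HasGenus (σ : RotationSystem G) (g : ℕ) : Prop :=
  (Nat.card V : ℤ) - Nat.card G.edgeSet + Nat.card σ.Faces = 2 - 2 * g

/-- The perimeter of every region is a circuit: no region traverses an edge twice, that is, no
region contains a dart together with the reversed dart. -/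
def RotationSystem.IsCircular (σ : RotationSystem G) : Prop :=
  ∀ d : G.Dart, ¬ σ.face.SameCycle d d.symm

/-- The genus of a (connected) graph: the least genus of an embedding. -/
noncomputable def genus (G : SimpleGraph V) : ℕ :=
  sInf {g | ∃ σ : RotationSystem G, σ.HasGenus g}

theorem RotationSystem.face_apply (σ : RotationSystem G) (d : G.Dart) :
    σ.face d = σ.next d.symm := rfl

end Pool.Agent.W2helper92.Genus
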