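import Pool.Agent.W2helper92.Genus.Defs
import Pool.Agent.W2helper92.Genus.Check

set_option autoImplicit false

namespace Pool.Agent.W2helper92.Genus

/-- the three neighbours of each vertex -/
def nb : Fin 16 → Fin 3 → Fin 16 :=
  ![![1, 2, 3], ![0, 4, 5], ![0, 4, 6], ![0, 5, 7], ![1, 2, 8], ![1, 3, 9], ![2, 8, 11],
    ![3, 10, 12], ![4, 6, 10], ![5, 11, 13], ![7, 8, 14], ![6, 9, 15], ![7, 14, 15],
    ![9, 14, 15], ![10, 12, 13], ![11, 12, 13]]

/-- `v` is the neighbour number `opi v i` of its neighbour number `i` -/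
def opi : Fin 16 → Fin 3 → Fin 3 :=
  ![![0, 0, 0], ![0, 0, 0], ![1, 1, 0], ![2, 1, 0], ![1, 1, 0], ![2, 1, 0], ![2, 1, 0],
    ![2, 0, 0], ![2, 1, 1], ![2, 1, 0], ![1, 2, 0], ![2, 1, 0], ![2, 1, 1], ![2, 2, 2],
    ![2, 1, 1], ![2, 2, 2]]

theorem nb_opi : ∀ v i, nb (nb v i) (opi v i) = v := by decide

theorem nb_ne : ∀ v i, nb v i ≠ v := by decide

theorem nb_inj : ∀ v i j, nb v i = nb v j → i = j := by decide

/-- The graph with 16 vertices and 24 edges. -/
def G16 : SimpleGraph (Fin 16) where
  Adj u v := ∃ i, nb u i = v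
  symm := ⟨fun u v h => by
    obtain ⟨i, rfl⟩ := h
    exact ⟨opi u i, nb_opi u i⟩⟩
  loopless := ⟨fun u h => by
    obtain ⟨i, h⟩ := h
    exact nb_ne u i h⟩

instance : DecidableRel G16.Adj := fun u v => inferInstanceAs (Decidable (∃ i, nb u i = v))

theorem adj_nb (v : Fin 16) (i : Fin 3) : G16.Adj v (nb v i) := ⟨i, rfl⟩

/-- The dart from `v` to its neighbour number `i`. -/
def dart (p : Fin 16 × Fin 3) : G16.Dart := ⟨(p.1, nb p.1 p.2), adj_nb p.1 p.2⟩

theorem dart_bij : Function.Bijective dart := by
  constructor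
  · rintro ⟨v, i⟩ ⟨w, j⟩ h
    have h1 : v = w := congrArg (fun d : G16.Dart => d.fst) h
    subst h1
    have h2 : nb v i = nb v j := congrArg (fun d : G16.Dart => d.snd) h
    rw [nb_inj v i j h2]
  · intro d
    obtain ⟨i, hi⟩ := d.adj
    exact ⟨(d.fst, i), SimpleGraph.Dart.ext _ _ (Prod.ext rfl hi)⟩

/-- The darts are numbered by vertex and neighbour. -/
noncomputable def dartEquiv : (Fin 16 × Fin 3) ≃ G16.Dart := Equiv.ofBijective dart dart_bij

theorem dartEquiv_apply (p : Fin 16 × Fin 3) : dartEquiv p = dart p := rfl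

/-- the reversed dart -/
def op (p : Fin 16 × Fin 3) : Fin 16 × Fin 3 := (nb p.1 p.2, opi p.1 p.2)

theorem dart_op (p : Fin 16 × Fin 3) : (dart p).symm = dart (op p) := by
  apply SimpleGraph.Dart.ext
  obtain ⟨v, i⟩ := p
  simp only [dart, op, SimpleGraph.Dart.symm, Prod.swap]
  rw [nb_opi]

/-- the number of a dart -/
def cd (p : Fin 16 × Fin 3) : ℕ := 3 * p.1 + p.2

theorem cd_inj : Function.Injective cd := by
  rintro ⟨v, i⟩ ⟨w, j⟩ h
  simp only [cd] at h
  have h1 : v = w := Fin.ext (by omega)
  have h2 : i = j := Fin.ext (by omega)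
  rw [h1, h2]

theorem cd_lt (p : Fin 16 × Fin 3) : cd p < 48 := by
  simp only [cd]
  omega

theorem cd_surj (i : ℕ) (hi : i < 48) : ∃ p, cd p = i :=
  ⟨(⟨i / 3, by omega⟩, ⟨i % 3, by omega⟩), by simp only [cd]; omega⟩

theorem opp_cd : ∀ p, opp (cd p) = cd (op p) := by decide +kernel

/-- the rotation at a vertex -/
def rot (b : Bool) (i : Fin 3) : Fin 3 := if b then i + 2 else i + 1

theorem step_tab : ∀ (b : Bool) (p : Fin 16 × Fin 3),
    Nat.land (Nat.shiftRight
      (Bool.rec
        307491190911633603042448840214797773167331150483866571968587985518812172862212498825668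
        315385120219356165544620238198945066694806520399586574147856852380772379687713537307141
        b : ℕ) (Nat.mul 6 (cd p))) 63 = cd ((op p).1, rot b (op p).2) := by
  decide +kernel

theorem vert_tab : ∀ p : Fin 16 × Fin 3, Nat.land (Nat.shiftRight
        102497043566582399587275752114211615469674828234977339144648338719326900435710396870785
        (Nat.mul 6 (cd p))) 63 = (op p).1 := by
  decide +kernel

theorem step_cd (m : ℕ) (p : Fin 16 × Fin 3) :
    step m (cd p) = cd ((op p).1, rot (m.testBit (op p).1) (op p).2) := by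
  have h : step m (cd p) = Nat.land (Nat.shiftRight
    (Bool.rec
      307491190911633603042448840214797773167331150483866571968587985518812172862212498825668
      315385120219356165544620238198945066694806520399586574147856852380772379687713537307141
      (tb m (Nat.land (Nat.shiftRight
        102497043566582399587275752114211615469674828234977339144648338719326900435710396870785
        (Nat.mul 6 (cd p))) 63)))
     (Nat.mul 6 (cd p))) 63 := rfl
  rw [h, vert_tab, tb_eq, step_tab]

/-- a permutation of three darts without fixed points is one of the two rotations -/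
theorem rot_of : ∀ f : Fin 3 → Fin 3, (∀ i j, f i = f j → i = j) → (∀ i, f i ≠ i) →
    ∃ b, ∀ i, f i = rot b i := by
  decide +kernel

/-- every rotation system is given by sixteen bits -/
theorem exists_bits (σ : RotationSystem G16) : ∃ m < 2 ^ 16, ∀ p : Fin 16 × Fin 3,
    σ.next (dart p) = dart (p.1, rot (m.testBit p.1) p.2) := by
  have key : ∀ v : Fin 16, ∃ b, ∀ i, σ.next (dart (v, i)) = dart (v, rot b i) := by
    intro v
    have h1 : ∀ i, ∃ j, σ.next (dart (v, i)) = dart (v, j) := by
      intro i
      obtain ⟨⟨w, j⟩, hq⟩ := dart_bij.2 (σ.next (dart (v, i)))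
      have h2 := σ.fst_next (dart (v, i))
      rw [← hq] at h2
      have h3 : w = v := h2
      subst h3
      exact ⟨j, hq.symm⟩
    choose f hf using h1
    have hinj : ∀ i j, f i = f j → i = j := by
      intro i j hij
      have h2 : σ.next (dart (v, i)) = σ.next (dart (v, j)) := by rw [hf, hf, hij]
      have h3 := dart_bij.1 (σ.next.injective h2)
      exact congrArg Prod.snd h3
    have hfix : ∀ i, f i ≠ i := by
      intro i hi
      have h2 : Function.IsFixedPt σ.next (dart (v, i)) := by
        show σ.next (dart (v, i)) = dart (v, i)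
        rw [hf, hi]
      have h3 := (σ.sameCycle (dart (v, i)) (dart (v, i + 1)) rfl).eq_of_left h2
      have h4 := congrArg Prod.snd (dart_bij.1 h3)
      have h5 : ∀ i : Fin 3, i ≠ i + 1 := by decide
      exact h5 i h4
    obtain ⟨b, hb⟩ := rot_of f hinj hfix
    exact ⟨b, fun i => by rw [hf, hb]⟩
  choose r hr using key
  refine ⟨Nat.ofBits r, Nat.ofBits_lt_two_pow r, fun p => ?_⟩
  rw [show (Nat.ofBits r).testBit p.1 = r p.1 from Nat.testBit_ofBits_lt r _ p.1.2]
  exact hr p.1 p.2

/-- the rotation system with given bits -/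
noncomputable def rotSys (r : Fin 16 → Bool) : RotationSystem G16 where
  next := dartEquiv.permCongr
    { toFun := fun p => (p.1, rot (r p.1) p.2)
      invFun := fun p => (p.1, rot (!r p.1) p.2)
      left_inv := by
        rintro ⟨v, i⟩
        simp only
        congr 1
        generalize r v = b
        revert b i
        decide
      right_inv := by
        rintro ⟨v, i⟩
        simp only
        congr 1
        generalize r v = b
        revert b i
        decide }
  fst_next := by
    intro d
    obtain ⟨p, rfl⟩ := dartEquiv.surjective d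
    simp only [Equiv.permCongr_apply, Equiv.symm_apply_apply, Equiv.coe_fn_mk]
    rfl
  sameCycle := by
    intro d d' h
    obtain ⟨⟨v, i⟩, rfl⟩ := dartEquiv.surjective d
    obtain ⟨⟨w, j⟩, rfl⟩ := dartEquiv.surjective d'
    have hvw : v = w := h
    subst hvw
    have hs : ∀ (b : Bool) (i j : Fin 3), j = i ∨ j = rot b i ∨ j = rot b (rot b i) := by decide
    rcases hs (r v) i j with h | h | h
    · rw [h]
    · refine ⟨1, ?_⟩
      rw [zpow_one, h]
      simp only [Equiv.permCongr_apply, Equiv.symm_apply_apply, Equiv.coe_fn_mk]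
    · refine ⟨2, ?_⟩
      rw [h]
      simp only [zpow_ofNat, pow_two, Equiv.Perm.mul_apply,
        Equiv.permCongr_apply, Equiv.symm_apply_apply, Equiv.coe_fn_mk]

theorem rotSys_next (r : Fin 16 → Bool) (p : Fin 16 × Fin 3) :
    (rotSys r).next (dart p) = dart (p.1, rot (r p.1) p.2) := by
  show dartEquiv.permCongr _ (dart p) = _
  rw [← dartEquiv_apply p, Equiv.permCongr_apply, Equiv.symm_apply_apply]
  rfl

end Pool.Agent.W2helper92.Genus
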