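import Pool.Agent.W2helper92.Genus.Graph
import Pool.Agent.W2helper92.Genus.Cut
import Pool.Agent.W2helper92.Genus.C0
import Pool.Agent.W2helper92.Genus.C1
import Pool.Agent.W2helper92.Genus.C2
import Pool.Agent.W2helper92.Genus.C3
import Pool.Agent.W2helper92.Genus.C4
import Pool.Agent.W2helper92.Genus.C5
import Pool.Agent.W2helper92.Genus.C6
import Pool.Agent.W2helper92.Genus.C7

set_option autoImplicit false

namespace Pool.Agent.W2helper92.Genus

theorem chunks : ∀ q, q < 64 → all2 check 10 q = true := by
  intro q hq
  interval_cases q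
  · exact chunk0
  · exact chunk1
  · exact chunk2
  · exact chunk3
  · exact chunk4
  · exact chunk5
  · exact chunk6
  · exact chunk7
  · exact chunk8
  · exact chunk9
  · exact chunk10
  · exact chunk11
  · exact chunk12
  · exact chunk13
  · exact chunk14
  · exact chunk15
  · exact chunk16
  · exact chunk17
  · exact chunk18
  · exact chunk19
  · exact chunk20
  · exact chunk21
  · exact chunk22
  · exact chunk23
  · exact chunk24
  · exact chunk25
  · exact chunk26
  · exact chunk27
  · exact chunk28
  · exact chunk29
  · exact chunk30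
  · exact chunk31
  · exact chunk32
  · exact chunk33
  · exact chunk34
  · exact chunk35
  · exact chunk36
  · exact chunk37
  · exact chunk38
  · exact chunk39
  · exact chunk40
  · exact chunk41
  · exact chunk42
  · exact chunk43
  · exact chunk44
  · exact chunk45
  · exact chunk46
  · exact chunk47
  · exact chunk48
  · exact chunk49
  · exact chunk50
  · exact chunk51
  · exact chunk52
  · exact chunk53
  · exact chunk54
  · exact chunk55
  · exact chunk56
  · exact chunk57
  · exact chunk58
  · exact chunk59
  · exact chunk60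
  · exact chunk61
  · exact chunk62
  · exact chunk63

theorem check_all (m : ℕ) (hm : m < 2 ^ 16) : check m = true := by
  have h1 := chunks (m / 2 ^ 10) (by omega)
  have h2 := all2_spec check 10 _ h1 (m % 2 ^ 10) (Nat.mod_lt _ (by norm_num))
  rwa [Nat.div_add_mod'] at h2

/-- Every rotation system of `G16` has at most eight faces, and if it has eight, then some face
traverses an edge twice. -/
theorem faces_le (σ : RotationSystem G16) :
    Nat.card σ.Faces ≤ 8 ∧ (Nat.card σ.Faces = 8 → ¬ σ.IsCircular) := by
  obtain ⟨m, hm, hσ⟩ := exists_bits σ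
  have h := check_spec (D := G16.Dart) (φ := σ.face) (cd := fun d => cd (dartEquiv.symm d))
    (m := m) (cd_inj.comp dartEquiv.symm.injective)
    (fun i hi => by
      obtain ⟨p, hp⟩ := cd_surj i hi
      exact ⟨dartEquiv p, by rw [Equiv.symm_apply_apply, hp]⟩)
    (fun d => cd_lt _)
    (fun d => by
      obtain ⟨p, rfl⟩ := dartEquiv.surjective d
      rw [Equiv.symm_apply_apply, step_cd, dartEquiv_apply, RotationSystem.face_apply, dart_op,
        hσ, ← dartEquiv_apply, Equiv.symm_apply_apply])
    SimpleGraph.Dart.symm
    (fun d => by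
      obtain ⟨p, rfl⟩ := dartEquiv.surjective d
      rw [Equiv.symm_apply_apply, opp_cd, dartEquiv_apply, dart_op, ← dartEquiv_apply,
        Equiv.symm_apply_apply])
    (check_all m hm)
  refine ⟨h.1, fun h8 hc => ?_⟩
  obtain ⟨d, hd⟩ := h.2 h8
  exact hc d hd

/-- a rotation system with eight faces -/
def bits0 : Fin 16 → Bool :=
  ![false, true, false, true, true, false, false, false, true, false, false, false, false, true,
    true, false]

/-- the numbers of the faces of the darts -/
def lab (p : Fin 16 × Fin 3) : Fin 8 :=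
  (![![0, 1, 2], ![1, 3, 0], ![2, 1, 4], ![0, 5, 2], ![1, 4, 3], ![3, 0, 5], ![2, 4, 2], ![5, 2, 6],
    ![4, 2, 3], ![3, 5, 2], ![6, 2, 3], ![2, 2, 5], ![5, 6, 7], ![3, 7, 2], ![6, 7, 3],
    ![2, 5, 7]] : Fin 16 → Fin 3 → Fin 8) p.1 p.2

theorem lab_step : ∀ p : Fin 16 × Fin 3, lab ((op p).1, rot (bits0 (op p).1) (op p).2) = lab p := by
  decide +kernel

theorem lab_surj : ∀ c : Fin 8, ∃ p, lab p = c := by decide +kernel

instance (σ : RotationSystem G16) : Finite σ.Faces := Quotient.finite _

theorem faces_rotSys : Nat.card (rotSys bits0).Faces = 8 := by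
  apply le_antisymm (faces_le _).1
  have hinv : ∀ d, lab (dartEquiv.symm ((rotSys bits0).face d)) = lab (dartEquiv.symm d) := by
    intro d
    obtain ⟨p, rfl⟩ := dartEquiv.surjective d
    rw [Equiv.symm_apply_apply, dartEquiv_apply, RotationSystem.face_apply, dart_op, rotSys_next,
      ← dartEquiv_apply, Equiv.symm_apply_apply, lab_step]
  have hz : ∀ (n : ℤ) d, lab (dartEquiv.symm (((rotSys bits0).face ^ n) d)) =
      lab (dartEquiv.symm d) := by
    intro n
    induction n using Int.induction_on with
    | zero => intro d; rfl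
    | succ n ih => intro d; rw [zpow_add_one, Equiv.Perm.mul_apply, ih, hinv]
    | pred n ih =>
      intro d
      rw [zpow_sub_one, Equiv.Perm.mul_apply, ih, ← hinv, ← Equiv.Perm.mul_apply, mul_inv_cancel,
        Equiv.Perm.one_apply]
  let F : (rotSys bits0).Faces → Fin 8 := Quotient.lift (fun d => lab (dartEquiv.symm d)) (by
    rintro a b ⟨n, rfl⟩
    exact (hz n a).symm)
  have hF : Function.Surjective F := by
    intro c
    obtain ⟨p, hp⟩ := lab_surj c
    refine ⟨Quotient.mk _ (dartEquiv p), ?_⟩
    show lab (dartEquiv.symm (dartEquiv p)) = c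
    rw [Equiv.symm_apply_apply, hp]
  have := Nat.card_le_card_of_surjective F hF
  simpa using this

theorem regular : G16.IsRegularOfDegree 3 := by
  intro v
  rw [← SimpleGraph.card_neighborFinset_eq_degree]
  have h : G16.neighborFinset v = Finset.univ.image (nb v) := by
    ext w
    rw [SimpleGraph.mem_neighborFinset, Finset.mem_image]
    constructor
    · rintro ⟨i, hi⟩
      exact ⟨i, Finset.mem_univ _, hi⟩
    · rintro ⟨i, _, hi⟩
      exact ⟨i, hi⟩
  rw [h, Finset.card_image_of_injective _ (nb_inj v)]
  rfl

theorem card_edges : Nat.card G16.edgeSet = 24 := by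
  rw [Nat.card_eq_fintype_card, ← SimpleGraph.edgeFinset_card]
  have h := G16.sum_degrees_eq_twice_card_edges
  rw [Finset.sum_congr rfl fun v _ => regular v] at h
  simp at h
  omega

theorem hasGenus_iff (σ : RotationSystem G16) (g : ℕ) :
    σ.HasGenus g ↔ Nat.card σ.Faces + 2 * g = 10 := by
  unfold RotationSystem.HasGenus
  rw [card_edges, Nat.card_eq_fintype_card, Fintype.card_fin]
  constructor
  · intro h
    push_cast at h
    omega
  · intro h
    push_cast
    omega

theorem genus_eq : genus G16 = 1 := by
  apply le_antisymm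
  · exact Nat.sInf_le ⟨rotSys bits0, (hasGenus_iff _ _).2 (by rw [faces_rotSys])⟩
  · refine le_csInf ⟨1, rotSys bits0, (hasGenus_iff _ _).2 (by rw [faces_rotSys])⟩ ?_
    rintro g ⟨σ, hσ⟩
    rw [hasGenus_iff] at hσ
    have := (faces_le σ).1
    omega

theorem not_circular (σ : RotationSystem G16) (h : σ.HasGenus (genus G16)) :
    ¬ σ.IsCircular := by
  rw [genus_eq, hasGenus_iff] at h
  exact (faces_le σ).2 (by omega)

theorem nb_lt : ∀ v : Fin 16, v ≠ 0 → nb v 0 < v := by decide

theorem connected : G16.Connected := by
  have h : ∀ (n : ℕ) (v : Fin 16), v.val = n → G16.Reachable v 0 := by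
    intro n
    induction n using Nat.strong_induction_on with
    | _ n ih =>
      intro v hv
      by_cases h0 : v = 0
      · rw [h0]
      · exact (adj_nb v 0).reachable.trans (ih _ (by rw [← hv]; exact nb_lt v h0) _ rfl)
  exact ⟨fun u v => (h _ u rfl).trans (h _ v rfl).symm⟩

theorem bridgeless (e : Sym2 (Fin 16)) : ¬ G16.IsBridge e := by
  induction e using Sym2.ind with
  | _ v w =>
    rw [SimpleGraph.isBridge_iff]
    intro hn
    set H := G16.deleteEdges {s(v, w)} with hH
    let S : Set (Fin 16) := {x | H.Reachable v x}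
    have hcross : {e ∈ G16.edgeSet | ∃ a ∈ S, ∃ b ∈ Sᶜ, e = s(a, b)} ⊆ {s(v, w)} := by
      rintro e ⟨he, a, ha, b, hb, rfl⟩
      rw [Set.mem_singleton_iff]
      by_contra hne
      apply hb
      have hab : H.Adj a b := by
        rw [hH, SimpleGraph.deleteEdges_adj]
        exact ⟨he, fun h => hne h⟩
      exact (show H.Reachable v a from ha).trans hab.reachable
    have hle : {e ∈ G16.edgeSet | ∃ a ∈ S, ∃ b ∈ Sᶜ, e = s(a, b)}.ncard ≤ 1 := by
      refine (Set.ncard_le_ncard hcross (Set.toFinite _)).trans ?_
      rw [Set.ncard_singleton]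
    have hv : v ∈ S := SimpleGraph.Reachable.refl _
    have hw : w ∈ Sᶜ := hn
    -- another neighbour of `v` is in `S`, another neighbour of `w` is not in `S`
    have other : ∀ x y : Fin 16, ∃ i, nb x i ≠ y := by
      intro x y
      by_contra h
      push Not at h
      exact absurd (nb_inj x 0 1 ((h 0).trans (h 1).symm)) (by decide)
    obtain ⟨i, hi⟩ := other v w
    obtain ⟨j, hj⟩ := other w v
    have h1 : nb v i ∈ S := by
      have hab : H.Adj v (nb v i) := by
        rw [hH, SimpleGraph.deleteEdges_adj]
        refine ⟨adj_nb v i, fun h => ?_⟩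
        have h2 : s(v, nb v i) = s(v, w) := h
        rw [Sym2.congr_right] at h2
        exact hi h2
      exact hab.reachable
    have h2 : nb w j ∈ Sᶜ := by
      intro h
      have hab : H.Adj w (nb w j) := by
        rw [hH, SimpleGraph.deleteEdges_adj]
        refine ⟨adj_nb w j, fun h => ?_⟩
        have h2 : s(w, nb w j) = s(v, w) := h
        rw [Sym2.eq_swap (a := v), Sym2.congr_right] at h2
        exact hj h2
      exact hn ((show H.Reachable v (nb w j) from h).trans hab.symm.reachable)
    have c1 : 2 ≤ S.ncard := by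
      have : ({v, nb v i} : Set (Fin 16)).ncard = 2 := Set.ncard_pair (nb_ne v i).symm
      rw [← this]
      exact Set.ncard_le_ncard (by
        rintro x (rfl | rfl)
        · exact hv
        · exact h1) (Set.toFinite _)
    have c2 : 2 ≤ Sᶜ.ncard := by
      have : ({w, nb w j} : Set (Fin 16)).ncard = 2 := Set.ncard_pair (nb_ne w j).symm
      rw [← this]
      exact Set.ncard_le_ncard (by
        rintro x (rfl | rfl)
        · exact hw
        · exact h2) (Set.toFinite _)
    have := four_edges S c1 c2
    omega

end Pool.Agent.W2helper92.Genus
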